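import Pool.Agent.P8H96.SP.Stm

/-!
# Project SP (helper96), part GEN: the general theorem for number fields
-/

set_option autoImplicit false

open Finset Polynomial Module Pool.Agent.H388SL Pool.Agent.P8H96.SP

namespace Pool.Agent.P8H80.SP

theorem adjoin_gen_top {k M : Type} [Field k] [Field M] [Algebra k M] (β : M) :
    IntermediateField.adjoin k {IntermediateField.AdjoinSimple.gen k β} = ⊤ := by
  apply IntermediateField.map_injective (IntermediateField.adjoin k {β}).val
  rw [IntermediateField.adjoin_map, Set.image_singleton]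
  rw [← AlgHom.fieldRange_eq_map, IntermediateField.fieldRange_val]
  simp

theorem lam_gen (hC : S_CARD) (hT : S_TRF) {k M : Type} [Field k] [NumberField k] [Field M]
    [NumberField M] [Algebra k M] (β : M) :
    (finrank (IntermediateField.adjoin k {β}) M : ℝ) *
      lam (IntermediateField.AdjoinSimple.gen k β) = lam β := by
  unfold lam
  rw [← (hC k M).2 (fun τ => Real.log (max 1 ‖τ β‖)),
    ← (hC k (IntermediateField.adjoin k {β})).2
      (fun τ => Real.log (max 1 ‖τ (IntermediateField.AdjoinSimple.gen k β)‖)), Finset.mul_sum]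
  refine Finset.sum_congr rfl fun σ _ => ?_
  have h := hT k M β σ (fun z => ((Real.log (max 1 ‖z‖) : ℝ) : ℂ))
  exact_mod_cast h.symm

theorem gen : S_GENX := by
  intro hC hT hF hP k M _ _ _ _ _ α F hα h0 hF0 hFα hs
  obtain ⟨m, hm1, hm2, hm3⟩ := hP k M α F hα h0 hF0 hFα hs
  refine ⟨m, hm1, hm2, ?_⟩
  set β := α ^ m with hβ
  have hβi : IsIntegral ℤ β := hα.pow m
  have hgi : IsIntegral ℤ (IntermediateField.AdjoinSimple.gen k β) := by
    have h := isIntegral_algebraMap_iff (R := ℤ) (A := IntermediateField.adjoin k {β}) (B := M)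
      (x := IntermediateField.AdjoinSimple.gen k β) (algebraMap (IntermediateField.adjoin k {β}) M).injective
    exact h.1 (by rw [IntermediateField.AdjoinSimple.algebraMap_gen]; exact hβi)
  have hfo := hF k (IntermediateField.adjoin k {β}) (IntermediateField.AdjoinSimple.gen k β) hgi
    (adjoin_gen_top β)
  have hlam := lam_gen hC hT (k := k) β
  have hdeg : finrank k (IntermediateField.adjoin k {β}) = (minpoly k β).natDegree :=
    IntermediateField.adjoin.finrank (Algebra.IsIntegral.isIntegral β)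
  have hmul : finrank k (IntermediateField.adjoin k {β}) *
      finrank (IntermediateField.adjoin k {β}) M = finrank k M :=
    Module.finrank_mul_finrank k (IntermediateField.adjoin k {β}) M
  have hmulQ : finrank ℚ k * finrank k M = finrank ℚ M := Module.finrank_mul_finrank ℚ k M
  have hdpos : 0 < finrank k (IntermediateField.adjoin k {β}) := Module.finrank_pos
  have hepos : 0 < finrank (IntermediateField.adjoin k {β}) M := Module.finrank_pos
  have hkpos : 0 < finrank ℚ k := Module.finrank_pos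
  rw [← hdeg]
  have hsum : ∑ σ : k →ₐ[ℚ] ℂ, ‖∑ τ ∈ cl (M := M) σ, H388SL.refl (τ β)‖ ^ 2 =
      (finrank (IntermediateField.adjoin k {β}) M : ℝ) ^ 2 *
      ∑ σ : k →ₐ[ℚ] ℂ, ‖∑ τ ∈ cl (M := IntermediateField.adjoin k {β}) σ,
        H388SL.refl (τ (IntermediateField.AdjoinSimple.gen k β))‖ ^ 2 := by
    rw [Finset.mul_sum]
    refine Finset.sum_congr rfl fun σ _ => ?_
    have h := hT k M β σ H388SL.refl
    rw [h, norm_mul, mul_pow, Complex.norm_natCast]
  rw [hsum] at hm3
  have hlamm : lam β = m * lam α := by rw [hβ, lam_pow]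
  generalize hd : (finrank k (IntermediateField.adjoin k {β})) = d at *
  generalize he : (finrank (IntermediateField.adjoin k {β}) M) = e at *
  generalize hk : (finrank ℚ k) = κ at *
  generalize hD : finrank k M = D at *
  generalize hn : finrank ℚ M = n at *
  generalize hL : lam (IntermediateField.AdjoinSimple.gen k β) = L at *
  generalize hS : (∑ σ : k →ₐ[ℚ] ℂ, ‖∑ τ ∈ cl (M := IntermediateField.adjoin k {β}) σ,
        H388SL.refl (τ (IntermediateField.AdjoinSimple.gen k β))‖ ^ 2) = S at *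
  have hsupp : 0 < F.support.card := Finset.card_pos.2 (by simpa using hF0)
  generalize hss : F.support.card = s at *
  have hs1 : (1 : ℝ) ≤ s := by exact_mod_cast hsupp
  have hs2 : (0 : ℝ) < (s : ℝ) ^ 2 := by positivity
  have hd1 : (1 : ℝ) ≤ d := by exact_mod_cast hdpos
  have he1 : (1 : ℝ) ≤ e := by exact_mod_cast hepos
  have hk1 : (1 : ℝ) ≤ κ := by exact_mod_cast hkpos
  have hDe : (D : ℝ) = d * e := by exact_mod_cast hmul.symm
  have hnk : (n : ℝ) = κ * D := by exact_mod_cast hmulQ.symm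
  have hla : 0 ≤ lam α := lam_nonneg α
  have hmN : (m : ℝ) ≤ F.natDegree := by exact_mod_cast hm2
  set R := 1 + 2 * Real.log (2 * (d : ℝ)) with hR
  -- `e L = m lam α`
  have h4 : (e : ℝ) * L ≤ F.natDegree * lam α := by
    rw [hlam, hlamm]
    exact mul_le_mul_of_nonneg_right hmN hla
  have h5 : 256 * (s : ℝ) ^ 2 * ((e : ℝ) * L) ≤ κ * (d * e) := by
    calc 256 * (s : ℝ) ^ 2 * ((e : ℝ) * L) ≤ 256 * (s : ℝ) ^ 2 * (F.natDegree * lam α) :=
          mul_le_mul_of_nonneg_left h4 (by positivity)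
      _ = 256 * (s : ℝ) ^ 2 * F.natDegree * lam α := by ring
      _ ≤ n := hs
      _ = (κ : ℝ) * (d * e) := by rw [hnk, hDe]
  have h6 : (κ : ℝ) * (d * e) ^ 2 / (4 * (s : ℝ) ^ 2) ≤ (e : ℝ) ^ 2 * (4 * d * L + κ * (d * R)) := by
    rw [← hDe]
    exact hm3.trans (mul_le_mul_of_nonneg_left hfo (by positivity))
  have h7 : (κ : ℝ) * (d * e) ^ 2 ≤ (e : ℝ) ^ 2 * (4 * d * L + κ * (d * R)) * (4 * (s : ℝ) ^ 2) := by
    rwa [div_le_iff₀ (by positivity)] at h6
  -- multiply out
  have h8 : (16 : ℝ) * (s : ℝ) ^ 2 * (e ^ 2 * d * L) ≤ κ * (d * e) ^ 2 / 16 := by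
    have h9 := mul_le_mul_of_nonneg_left h5 (show (0 : ℝ) ≤ d * e / 16 by positivity)
    calc (16 : ℝ) * (s : ℝ) ^ 2 * (e ^ 2 * d * L) = (d : ℝ) * e / 16 * (256 * (s : ℝ) ^ 2 * ((e : ℝ) * L)) := by
          ring
      _ ≤ (d : ℝ) * e / 16 * (κ * (d * e)) := h9
      _ = (κ : ℝ) * ((d : ℝ) * e) ^ 2 / 16 := by ring
  have h10 : (15 / 16 : ℝ) * (κ * d * e ^ 2) * d ≤ (κ * d * e ^ 2) * (4 * (s : ℝ) ^ 2 * R) := by
    nlinarith [h7, h8]
  have h11 : (15 / 16 : ℝ) * d ≤ 4 * (s : ℝ) ^ 2 * R := by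
    have hpos : (0 : ℝ) < κ * d * e ^ 2 := by positivity
    nlinarith [h10, hpos, le_of_mul_le_mul_left (show (κ * d * e ^ 2) * ((15 / 16 : ℝ) * d) ≤
      (κ * d * e ^ 2) * (4 * (s : ℝ) ^ 2 * R) by linarith) hpos]
  have hR0 : 0 ≤ (s : ℝ) ^ 2 * R := by nlinarith
  linarith

end Pool.Agent.P8H80.SP
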